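import Pool.Agent.MP_ed9623_an.H77.SpecA

/-! The time derivative of a weak solution solves the linearised equation. -/

open MeasureTheory Filter Topology Set
open scoped ContDiff InnerProductSpace

set_option linter.unusedSectionVars false

namespace Pool.Agent.MP_ed9623_an.H77

namespace Der

section tl

variable {E F K : Type} [NormedAddCommGroup E] [InnerProductSpace ℝ E]
  [NormedAddCommGroup F] [InnerProductSpace ℝ F] [NormedAddCommGroup K] [NormedSpace ℝ K]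
  {μ : Measure ℝ} {l : Filter ℝ}

open Classical in
/-- The class of a function in `L²`. -/
noncomputable def tl (μ : Measure ℝ) (f : ℝ → E) : Lp E 2 μ :=
  if h : MemLp f 2 μ then h.toLp f else 0

theorem tl_ae {f : ℝ → E} (hf : MemLp f 2 μ) : tl μ f =ᵐ[μ] f := by
  rw [tl, dif_pos hf]
  exact hf.coeFn_toLp

theorem nsq (f : Lp E 2 μ) : ‖f‖ ^ 2 = ∫ a, ‖f a‖ ^ 2 ∂μ := by
  rw [← real_inner_self_eq_norm_sq, L2.inner_def]
  simp only [real_inner_self_eq_norm_sq]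

theorem tl_dist {f g : ℝ → E} (hf : MemLp f 2 μ) (hg : MemLp g 2 μ) :
    ‖tl μ f - tl μ g‖ ^ 2 = ∫ a, ‖f a - g a‖ ^ 2 ∂μ := by
  rw [nsq]
  refine integral_congr_ae ?_
  filter_upwards [Lp.coeFn_sub (tl μ f) (tl μ g), tl_ae hf, tl_ae hg] with a h1 h2 h3
  rw [h1, Pi.sub_apply, h2, h3]

theorem tl_tendsto {f : ℝ → ℝ → E} {g : ℝ → E} (hf : ∀ᶠ h in l, MemLp (f h) 2 μ)
    (hg : MemLp g 2 μ) (t : Tendsto (fun h => ∫ a, ‖f h a - g a‖ ^ 2 ∂μ) l (𝓝 0)) :
    Tendsto (fun h => tl μ (f h)) l (𝓝 (tl μ g)) := by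
  rw [tendsto_iff_norm_sub_tendsto_zero]
  have t2 := t.sqrt
  rw [Real.sqrt_zero] at t2
  refine t2.congr' (hf.mono fun h hh => ?_)
  simp only
  rw [← tl_dist hh hg, Real.sqrt_sq (norm_nonneg _)]

theorem pair_eq [CompleteSpace K] (B : E →L[ℝ] F →L[ℝ] K) {f : ℝ → E} {g : ℝ → F}
    (hf : MemLp f 2 μ) (hg : MemLp g 2 μ) :
    B.lpPairing μ 2 2 (tl μ f) (tl μ g) = ∫ a, B (f a) (g a) ∂μ := by
  rw [ContinuousLinearMap.lpPairing_eq_integral]
  refine integral_congr_ae ?_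
  filter_upwards [tl_ae hf, tl_ae hg] with a h2 h3
  rw [h2, h3]

theorem pair_tendsto [CompleteSpace K] (B : E →L[ℝ] F →L[ℝ] K) {f : ℝ → ℝ → E} {g : ℝ → ℝ → F}
    {f' : ℝ → E} {g' : ℝ → F} (hf : ∀ᶠ h in l, MemLp (f h) 2 μ) (hg : ∀ᶠ h in l, MemLp (g h) 2 μ)
    (hf' : MemLp f' 2 μ) (hg' : MemLp g' 2 μ)
    (tf : Tendsto (fun h => tl μ (f h)) l (𝓝 (tl μ f')))
    (tg : Tendsto (fun h => tl μ (g h)) l (𝓝 (tl μ g'))) :
    Tendsto (fun h => ∫ a, B (f h a) (g h a) ∂μ) l (𝓝 (∫ a, B (f' a) (g' a) ∂μ)) := by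
  have := ((B.lpPairing μ 2 2).continuous₂.tendsto (tl μ f', tl μ g')).comp (tf.prodMk_nhds tg)
  rw [← pair_eq B hf' hg']
  refine this.congr' ?_
  filter_upwards [hf, hg] with h a b
  exact pair_eq B a b

theorem pair_int (B : E →L[ℝ] F →L[ℝ] K) {f : ℝ → E} {g : ℝ → F}
    (hf : MemLp f 2 μ) (hg : MemLp g 2 μ) : Integrable (fun a => B (f a) (g a)) μ :=
  memLp_one_iff_integrable.1 (B.memLp_of_bilin 1 hf hg)

end tl

variable {H V : Type} [NormedAddCommGroup H] [InnerProductSpace ℝ H] [CompleteSpace H]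
  [NormedAddCommGroup V] [InnerProductSpace ℝ V] [CompleteSpace V]
  {S : St H V} {I : Set ℝ} {z : ℝ → H} {Z : ℝ → V} {s t : ℝ}

theorem ev_mem (hI : Itv I) (hs : s ∈ I) : ∀ᶠ h in 𝓝[≠] (0 : ℝ), s + h ∈ I := by
  have : Tendsto (fun h : ℝ => s + h) (𝓝 0) (𝓝 s) := by
    simpa using (continuous_const_add s).tendsto (0 : ℝ)
  exact (this.eventually (hI.1.mem_nhds hs)).filter_mono nhdsWithin_le_nhds

theorem around (hI : Itv I) (hs : s ∈ I) : ∃ a ∈ I, ∃ b ∈ I, a < s ∧ s < b := by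
  obtain ⟨ε, hε, h⟩ := Metric.isOpen_iff.1 hI.1 s hs
  refine ⟨s - ε / 2, h ?_, s + ε / 2, h ?_, by linarith, by linarith⟩ <;>
    rw [Metric.mem_ball, Real.dist_eq, abs_lt] <;> constructor <;> linarith

theorem ii_eq {E : Type} [NormedAddCommGroup E] [NormedSpace ℝ E] (hst : s ≤ t) (f : ℝ → E) :
    ∫ r in s..t, f r = ∫ r in Ioo s t, f r := by
  rw [intervalIntegral.integral_of_le hst, integral_Ioc_eq_integral_Ioo]

theorem ex_z (D : Dq2S) (hI : Itv I) (hw : Wk S I z Z) (ht : t ∈ I) :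
    ∃ x, Tendsto (fun h => dq h z t) (𝓝[≠] 0) (𝓝 x) := by
  refine CompleteSpace.complete (cauchy_map_iff'.2 ?_)
  refine Metric.uniformity_basis_dist_le.tendsto_right_iff.2 fun ε hε => ?_
  refine (D hI hw t ht t ht le_rfl ε hε).mono fun p hp => ?_
  have := hp.1 t ⟨le_rfl, le_rfl⟩
  rwa [← dist_eq_norm] at this

theorem unif (D : Dq2S) (hI : Itv I) (hw : Wk S I z Z) {z₁ : ℝ → H}
    (h1 : ∀ t ∈ I, Tendsto (fun h => dq h z t) (𝓝[≠] 0) (𝓝 (z₁ t))) (hs : s ∈ I) (ht : t ∈ I)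
    (hst : s ≤ t) {ε : ℝ} (hε : 0 < ε) :
    ∀ᶠ h in 𝓝[≠] (0 : ℝ), ∀ r ∈ Icc s t, ‖dq h z r - z₁ r‖ ≤ ε := by
  refine (D hI hw s hs t ht hst ε hε).curry.mono fun h hh r hr => ?_
  refine le_of_tendsto ((tendsto_const_nhds (x := dq h z r)).sub (h1 r (hI.Icc hs ht hr))).norm ?_
  exact hh.mono fun h' a => a.1 r hr

theorem cont1 (D : Dq2S) (hI : Itv I) (hw : Wk S I z Z) {z₁ : ℝ → H}
    (h1 : ∀ t ∈ I, Tendsto (fun h => dq h z t) (𝓝[≠] 0) (𝓝 (z₁ t))) : ContinuousOn z₁ I := by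
  intro r hr
  obtain ⟨a, ha, b, hb, har, hrb⟩ := around hI hr
  have u : TendstoUniformlyOn (fun h => dq h z) z₁ (𝓝[≠] 0) (Icc a b) := by
    refine Metric.tendstoUniformlyOn_iff.2 fun ε hε => ?_
    refine (unif D hI hw h1 ha hb (har.trans hrb).le (half_pos hε)).mono fun h hh x hx => ?_
    rw [dist_comm, dist_eq_norm]
    exact (hh x hx).trans_lt (half_lt_self hε)
  have c := u.continuousOn (Eventually.frequently (by
    filter_upwards [ev_mem hI ha, ev_mem hI hb] with h a1 b1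
    exact (Lin.dq hw h).cont.mono ((hI.inter (hI.shift h)).Icc ⟨ha, a1⟩ ⟨hb, b1⟩)))
  exact (c.continuousAt (Icc_mem_nhds har hrb)).continuousWithinAt

theorem ex_W (D : Dq2S) (hI : Itv I) (hw : Wk S I z Z) {z₁ : ℝ → H}
    (h1 : ∀ t ∈ I, Tendsto (fun h => dq h z t) (𝓝[≠] 0) (𝓝 (z₁ t))) (hs : s ∈ I) (ht : t ∈ I)
    (hst : s ≤ t) : ∃ W : Lp V 2 (volume.restrict (Ioo s t)),
      Tendsto (fun h => tl (volume.restrict (Ioo s t)) (dq h Z)) (𝓝[≠] 0) (𝓝 W) ∧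
      ∀ᵐ r ∂volume.restrict (Ioo s t), S.ι (W r) = z₁ r := by
  have em : ∀ᶠ h in 𝓝[≠] (0 : ℝ), s + h ∈ I ∧ t + h ∈ I := (ev_mem hI hs).and (ev_mem hI ht)
  have mZ : ∀ᶠ h in 𝓝[≠] (0 : ℝ), MemLp (dq h Z) 2 (volume.restrict (Ioo s t)) :=
    em.mono fun h a => (Lin.dq hw h).lZ s ⟨hs, a.1⟩ t ⟨ht, a.2⟩
  have mz : ∀ᶠ h in 𝓝[≠] (0 : ℝ), MemLp (dq h z) 2 (volume.restrict (Ioo s t)) :=
    em.mono fun h a => Loc2.of_cont (hI.inter (hI.shift h)) (Lin.dq hw h).cont s ⟨hs, a.1⟩ t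
      ⟨ht, a.2⟩
  have m1 : MemLp z₁ 2 (volume.restrict (Ioo s t)) := Loc2.of_cont hI (cont1 D hI hw h1) s hs t ht
  obtain ⟨W, hW⟩ : ∃ W, Tendsto (fun h => tl (volume.restrict (Ioo s t)) (dq h Z)) (𝓝[≠] 0)
      (𝓝 W) := by
    refine CompleteSpace.complete (cauchy_map_iff'.2 ?_)
    refine Metric.uniformity_basis_dist_le.tendsto_right_iff.2 fun ε hε => ?_
    filter_upwards [D hI hw s hs t ht hst (ε ^ 2) (by positivity), mZ.prod_inl _, mZ.prod_inr _]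
      with p hp a b
    have := hp.2
    rw [ii_eq hst, ← tl_dist a b] at this
    rw [dist_eq_norm]
    exact le_of_sq_le_sq this hε.le
  refine ⟨W, hW, ?_⟩
  have t1 : Tendsto (fun h => tl (volume.restrict (Ioo s t)) (dq h z)) (𝓝[≠] 0)
      (𝓝 (tl (volume.restrict (Ioo s t)) z₁)) := by
    refine tl_tendsto mz m1 ?_
    have u : TendstoUniformlyOn (fun h a => ‖dq h z a - z₁ a‖ ^ 2) (fun _ => 0) (𝓝[≠] 0)
        (Ioo s t) := by
      refine Metric.tendstoUniformlyOn_iff.2 fun ε hε => ?_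
      refine (unif D hI hw h1 hs ht hst (Real.sqrt_pos.2 (half_pos hε))).mono fun h hh x hx => ?_
      have := pow_le_pow_left₀ (norm_nonneg _) (hh x (Ioo_subset_Icc_self hx)) 2
      rw [Real.sq_sqrt (half_pos hε).le] at this
      rw [dist_comm, dist_zero_right, Real.norm_eq_abs, abs_of_nonneg (sq_nonneg _)]
      linarith
    refine Metric.tendsto_nhds.2 fun ε hε => ?_
    have hδ : 0 < ε / (t - s + 1) := div_pos hε (by linarith)
    refine (Metric.tendstoUniformlyOn_iff.1 u _ hδ).mono fun h hh => ?_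
    rw [dist_zero_right]
    refine (norm_setIntegral_le_of_norm_le_const (C := ε / (t - s + 1)) (by simp)
      fun x hx => ?_).trans_lt ?_
    · have := hh x hx
      rw [dist_comm, dist_zero_right] at this
      exact this.le
    · rw [Real.volume_real_Ioo_of_le hst, div_mul_eq_mul_div, div_lt_iff₀ (by linarith)]
      nlinarith
  have t2 := ((S.ι.compLpL 2 (volume.restrict (Ioo s t))).continuous.tendsto W).comp hW
  have e : S.ι.compLpL 2 (volume.restrict (Ioo s t)) W = tl (volume.restrict (Ioo s t)) z₁ := by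
    refine tendsto_nhds_unique (t2.congr' ?_) t1
    filter_upwards [mZ, mz, em] with h a b c
    refine Lp.ext ?_
    have lf := (ae_restrict_iff' (measurableSet_Ioo (a := s) (b := t))).2
      ((Lin.dq hw h).lift.mono fun r x hr =>
        x ((hI.inter (hI.shift h)).Ioo ⟨hs, c.1⟩ ⟨ht, c.2⟩ hr))
    filter_upwards [S.ι.coeFn_compLpL (tl (volume.restrict (Ioo s t)) (dq h Z)), tl_ae a, tl_ae b,
      lf] with r a1 a2 a3 a4
    rw [Function.comp_apply, a1, a2, a3, a4]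
  filter_upwards [S.ι.coeFn_compLpL W, tl_ae m1] with r a1 a2
  rw [← a1, e, a2]

theorem dq_G (S : St H V) (Z : ℝ → V) (h r : ℝ) : dq h (fun t => S.G (Z t)) r =
    -(S.A (dq h Z r) + S.B (dq h Z r) (Z (r + h)) + S.B (Z r) (dq h Z r)) := by
  simp only [dq, St.G_sub, map_smul, smul_apply, smul_neg, smul_add]

theorem eq_le (K : StekS) (hI : Itv I) (hw : Wk S I z Z) {z₁ : ℝ → H} {Z₁ : ℝ → V}
    (h1 : ∀ t ∈ I, Tendsto (fun h => dq h z t) (𝓝[≠] 0) (𝓝 (z₁ t))) (hs : s ∈ I) (ht : t ∈ I)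
    (hst : s ≤ t) (m1 : MemLp Z₁ 2 (volume.restrict (Ioo s t)))
    (hW : Tendsto (fun h => tl (volume.restrict (Ioo s t)) (dq h Z)) (𝓝[≠] 0)
      (𝓝 (tl (volume.restrict (Ioo s t)) Z₁))) :
    adj S.ι (z₁ t) - adj S.ι (z₁ s) = ∫ r in s..t, S.G' (Z r) (Z₁ r) := by
  have em : ∀ᶠ h in 𝓝[≠] (0 : ℝ), s + h ∈ I ∧ t + h ∈ I := (ev_mem hI hs).and (ev_mem hI ht)
  have mZ : ∀ᶠ h in 𝓝[≠] (0 : ℝ), MemLp (dq h Z) 2 (volume.restrict (Ioo s t)) :=
    em.mono fun h a => (Lin.dq hw h).lZ s ⟨hs, a.1⟩ t ⟨ht, a.2⟩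
  have mS : ∀ᶠ h in 𝓝[≠] (0 : ℝ), MemLp (fun r => Z (r + h)) 2 (volume.restrict (Ioo s t)) :=
    em.mono fun h a => hw.lZ.shift h s a.1 t a.2
  have m0 : MemLp Z 2 (volume.restrict (Ioo s t)) := hw.lZ s hs t ht
  have mc : MemLp (fun _ : ℝ => (1 : ℝ)) 2 (volume.restrict (Ioo s t)) := memLp_const 1
  have tS : Tendsto (fun h => tl (volume.restrict (Ioo s t)) fun r => Z (r + h)) (𝓝[≠] 0)
      (𝓝 (tl (volume.restrict (Ioo s t)) Z)) := by
    refine tl_tendsto mS m0 ?_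
    have := ((K hI hw.lZ).2.2 s hs t ht hst).2.mono_left (nhdsWithin_le_nhds (s := {0}ᶜ))
    simpa only [ii_eq hst] using this
  have p1 := pair_tendsto ((ContinuousLinearMap.id ℝ ℝ).smulRight S.A) (l := 𝓝[≠] 0)
    (f := fun _ _ => (1 : ℝ)) (Eventually.of_forall fun _ => mc) mZ mc m1 tendsto_const_nhds hW
  have p2 := pair_tendsto S.B mZ mS m1 m0 hW tS
  have p3 := pair_tendsto S.B (l := 𝓝[≠] 0) (f := fun _ => Z) (Eventually.of_forall fun _ => m0)
    mZ m0 m1 tendsto_const_nhds hW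
  simp only [ContinuousLinearMap.smulRight_apply, ContinuousLinearMap.id_apply, one_smul] at p1
  have L := (((adj S.ι).continuous.tendsto _).comp (h1 t ht)).sub
    (((adj S.ι).continuous.tendsto _).comp (h1 s hs))
  have iA : ∀ {f : ℝ → V}, MemLp f 2 (volume.restrict (Ioo s t)) →
      Integrable (fun r => S.A (f r)) (volume.restrict (Ioo s t)) := fun hf =>
    (S.A.comp_memLp' hf).integrable one_le_two
  have i3 : ∀ {f g k : ℝ → V}, Integrable f (volume.restrict (Ioo s t)) →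
      Integrable g (volume.restrict (Ioo s t)) → Integrable k (volume.restrict (Ioo s t)) →
      ∫ r in Ioo s t, -(f r + g r + k r) =
        -((∫ r in Ioo s t, f r) + (∫ r in Ioo s t, g r) + ∫ r in Ioo s t, k r) :=
    fun {f g k} a b c => by
      rw [integral_neg, integral_add (f := fun r => f r + g r) (a.add b) c, integral_add a b]
  refine tendsto_nhds_unique L ?_
  rw [ii_eq hst]
  simp only [St.G']
  rw [i3 (iA m1) (pair_int _ m1 m0) (pair_int _ m0 m1)]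
  refine ((p1.add p2).add p3).neg.congr' ?_
  filter_upwards [em, mZ, mS] with h c a b
  rw [Function.comp_apply, Function.comp_apply, (Lin.dq hw h).eq s ⟨hs, c.1⟩ t ⟨ht, c.2⟩,
    ii_eq hst]
  simp only [dq_G]
  rw [i3 (iA a) (pair_int _ a b) (pair_int _ m0 a)]

end Der

open Der in
theorem rowDer : OfDer := by
  intro K D H V _ _ _ _ _ _ S I z Z hI hw
  have h0 : ∀ t ∈ I, ∃ x, Tendsto (fun h => dq h z t) (𝓝[≠] 0) (𝓝 x) := fun t ht =>
    ex_z D hI hw ht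
  choose! z₁ h1 using h0
  have c1 := cont1 D hI hw h1
  set Z₁ : ℝ → V := fun r => Function.invFun S.ι (z₁ r) with hZ₁
  have key : ∀ s ∈ I, ∀ t ∈ I, s ≤ t → MemLp Z₁ 2 (volume.restrict (Ioo s t)) ∧
      Tendsto (fun h => tl (volume.restrict (Ioo s t)) (dq h Z)) (𝓝[≠] 0)
        (𝓝 (tl (volume.restrict (Ioo s t)) Z₁)) ∧
      ∀ᵐ r ∂volume.restrict (Ioo s t), S.ι (Z₁ r) = z₁ r := by
    intro s hs t ht hst
    obtain ⟨W, hW, e⟩ := ex_W D hI hw h1 hs ht hst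
    have e1 : W =ᵐ[volume.restrict (Ioo s t)] Z₁ := e.mono fun r a => by
      rw [hZ₁]
      simp only
      rw [← a, Function.leftInverse_invFun S.inj]
    have m := (Lp.memLp W).ae_eq e1
    refine ⟨m, ?_, ?_⟩
    · rwa [show tl (volume.restrict (Ioo s t)) Z₁ = W from Lp.ext ((tl_ae m).trans e1.symm)]
    · filter_upwards [e, e1] with r a b
      rw [← b, a]
  have lZ : Loc2 I Z₁ := fun s hs t ht => by
    rcases le_total s t with hst | hst
    · exact (key s hs t ht hst).1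
    · rw [Ioo_eq_empty (not_lt.2 hst), Measure.restrict_empty]
      simp
  have lf : ∀ᵐ r, r ∈ I → S.ι (Z₁ r) = z₁ r := by
    refine measure_null_of_locally_null _ fun x hx => ?_
    have hx' : x ∈ I := by
      by_contra hn
      exact hx fun a => absurd a hn
    obtain ⟨a, ha, b, hb, h2, h3⟩ := around hI hx'
    have := (ae_restrict_iff' measurableSet_Ioo).1 (key a ha b hb (h2.trans h3).le).2.2
    refine ⟨_, ?_, this⟩
    filter_upwards [self_mem_nhdsWithin, mem_nhdsWithin_of_mem_nhds (Ioo_mem_nhds h2 h3)]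
      with y hy hy' hh
    exact hy fun _ => hh hy'
  refine ⟨z₁, Z₁, fun t ht => hasDerivAt_iff_tendsto_slope_zero.2 (h1 t ht), c1, lZ,
    (((lZ.clm S.A).add (S.loc2_B hI c1 hw.cont lZ hw.lZ lf hw.lift)).add
      (S.loc2_B hI hw.cont c1 hw.lZ lZ hw.lift lf)).neg, lf, fun s hs t ht => ?_⟩
  rcases le_total s t with hst | hst
  · exact eq_le K hI hw h1 hs ht hst (key s hs t ht hst).1 (key s hs t ht hst).2.1
  · rw [intervalIntegral.integral_symm,
      ← eq_le K hI hw h1 ht hs hst (key t ht s hs hst).1 (key t ht s hs hst).2.1, neg_sub]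

end Pool.Agent.MP_ed9623_an.H77
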